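import Pool.Agent.H13.DEV.Targets
import Pool.Agent.H34.N6.LibC
import Pool.Agent.H23.N6E.EBD2

/-!
# Block E: the field generated by the root near `e`
-/

set_option autoImplicit false

open Polynomial NumberField IsDedekindDomain Pool.Agent.H32.QC Pool.Agent.H34.N6
  Pool.Agent.H13.DEV

namespace Pool.Agent.H81.N6E

/-- a monic irreducible factor which vanishes at the root -/
theorem exists_factor {k F : Type*} [Field k] [Field F] (i : k →+* F) {G : k[X]} (hG : G.Monic)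
    {t : F} (ht : eval₂ i t G = 0) :
    ∃ G1 : k[X], G1.Monic ∧ Irreducible G1 ∧ G1 ∣ G ∧ eval₂ i t G1 = 0 := by
  let _ := i.toAlgebra
  have h : IsIntegral k t := ⟨G, hG, ht⟩
  exact ⟨minpoly k t, minpoly.monic h, minpoly.irreducible h, minpoly.dvd k t ht,
    minpoly.aeval k t⟩

theorem pf_BD1 (hHEN : T_HEN) (hEXA : T_EXA) (hRTH : T_RTH) (_hBEL : T_BEL) : T_BD1 := by
  intro k L _ _ _ _ _ P e ws N G hP hPi heP hstar
  have hL : ∀ Q : k[X], eval (ic ws e) (Q.map (kc k ws)) = ic ws (aeval e Q) := by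
    intro Q
    rw [eval_map, aeval_def, Polynomial.hom_eval₂]
  have hPe : eval (ic ws e) (P.map (kc k ws)) = 0 := by rw [hL, heP, map_zero]
  have he1 : ‖ic ws e‖ ≤ 1 :=
    Pool.Agent.H23.N6E.root_int (hP.map _) (fun i => poly_up hPi i) hPe
  obtain ⟨t, ht, htc, -⟩ := hHEN (ws.adicCompletion L) (G.map (kc k ws)) (ic ws e)
    (fun i => poly_up hstar.int i) he1 (by rw [hL]; exact hstar.lt)
    (by rw [Polynomial.derivative_map, hL]; exact hstar.der)
  rw [eval_map] at ht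
  obtain ⟨G1, hG1m, hG1i, ⟨Q, hQ⟩, hG1t⟩ := exists_factor (kc k ws) hstar.mon ht
  obtain ⟨K, i1, i2, i3, θ, hgen, -⟩ := hEXA k G1 hG1m hG1i
  obtain ⟨f, hf, hfk⟩ := hRTH k K G1 θ hG1m hgen (ws.adicCompletion L) (kc k ws) t hG1t
  refine ⟨K, i1, i2, i3, θ, f, hgen.adj, ?_, hfk, ?_⟩
  · have h1 : aeval θ G1 = 0 := by
      rw [← hgen.mp]
      exact minpoly.aeval k θ
    rw [hQ, map_mul, h1, zero_mul]
  · rw [hf]
    exact htc

end Pool.Agent.H81.N6E
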