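import Pool.Agent.H13.DEV.Targets
import Pool.Agent.H34.N6.LibC
import Pool.Agent.H23.N6E.EBD2

/-!
# Block E: there is only one bad place
-/

set_option autoImplicit false

open Polynomial NumberField IsDedekindDomain Pool.Agent.H32.QC Pool.Agent.H34.N6
  Pool.Agent.H13.DEV

namespace Pool.Agent.H81.N6E

/-- ring homomorphisms which agree on `k` and on a generator -/
theorem hom_ext_gen {k K F : Type*} [Field k] [Field K] [Algebra k K] [Field F] {θ : K}
    (hθ : IntermediateField.adjoin k {θ} = ⊤) {φ ψ : K →+* F}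
    (hk : ∀ x : k, φ (algebraMap k K x) = ψ (algebraMap k K x)) (h : φ θ = ψ θ) (x : K) :
    φ x = ψ x := by
  have hx : x ∈ IntermediateField.adjoin k {θ} := by
    rw [hθ]
    exact IntermediateField.mem_top
  induction hx using IntermediateField.adjoin_induction with
  | mem x hx =>
    rw [Set.mem_singleton_iff] at hx
    rw [hx, h]
  | algebraMap x => exact hk x
  | add x y _ _ h1 h2 => rw [map_add, map_add, h1, h2]
  | inv x _ h1 => rw [map_inv₀, map_inv₀, h1]
  | mul x y _ _ h1 h2 => rw [map_mul, map_mul, h1, h2]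

theorem pf_BD3 (_hPLE : T_PLE) (hNRT : T_NRT) (hHOM : T_HOM) (hUNQ : T_UNQ) (hHEN : T_HEN)
    (_hBEL : T_BEL) : T_BD3 := by
  intro k L K _ _ _ _ _ _ _ _ P e ws N G θ w₀ h hP hgen hPi hstar hadj hθ hcont hh hclose w hw
    e' he' hc
  have hPw : Int (w.under (𝓞 k)) P := by
    rw [hw]
    exact hPi
  have hGw : Int (w.under (𝓞 k)) G := by
    rw [hw]
    exact hstar.int
  obtain ⟨-, hall⟩ := hNRT k L K P G e θ w hgen hP hPw hstar.mon hGw hθ
  obtain ⟨w', g, hg, hge, hgk, hw', hlt⟩ := hall e' he' hc
  have hws : w' = ws := by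
    by_contra hne
    have h1 := hstar.oth w' (hw'.trans hw) hne
    rw [h1] at hlt
    exact lt_irrefl _ hlt
  subst hws
  have hgc : g.comp (kc k w') = kc k w := RingHom.ext hgk
  have hhc : h.comp (kc k w₀) = kc k w' := RingHom.ext hh
  have hL : ∀ Q : k[X], eval e' (Q.map (kc k w)) = g (ic w' (aeval e Q)) := by
    intro Q
    rw [aeval_def, Polynomial.hom_eval₂, Polynomial.hom_eval₂, eval_map, hge]
    exact congrArg (fun i => eval₂ i e' Q) hgc.symm
  have hgn := hHOM K L w w' g hg
  have hhn := hHOM L K w' w₀ h hcont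
  have he1 : ‖e'‖ ≤ 1 := Pool.Agent.H23.N6E.root_int (hP.map (kc k w)) (fun i => poly_up hPw i)
    (by rw [eval_map]; exact he')
  obtain ⟨b, -, -, hb⟩ := hHEN (w.adicCompletion K) (G.map (kc k w)) e'
    (fun i => poly_up hGw i) he1
    (by rw [hL]; exact (hgn _).2.2 hstar.lt)
    (by
      rw [Polynomial.derivative_map, hL]
      apply le_antisymm
      · exact (hgn _).1.2 hstar.der.le
      · by_contra hcon
        push Not at hcon
        have h1 := (hgn _).2.1 hcon
        rw [hstar.der] at h1
        exact lt_irrefl _ h1)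
  have h1 : g (h (ic w₀ θ)) = b := by
    apply hb
    · have h2 : g (h (ic w₀ (aeval θ G))) = 0 := by
        rw [hθ, map_zero, map_zero, map_zero]
      rw [aeval_def, Polynomial.hom_eval₂, Polynomial.hom_eval₂, Polynomial.hom_eval₂] at h2
      rw [eval_map, ← h2, ← hgc, ← hhc]
    · rw [← hge, ← map_sub]
      exact (hgn _).2.2 hclose
  have h2 : ic w θ = b := by
    apply hb
    · have h3 : ic w (aeval θ G) = 0 := by
        rw [hθ, map_zero]
      rw [aeval_def, Polynomial.hom_eval₂] at h3
      rw [eval_map]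
      exact h3
    · rw [norm_sub_rev]
      exact hc
  have hagree : ∀ x : K, (g.comp (h.comp (ic w₀))) x = ic w x := by
    apply hom_ext_gen hadj
    · intro x
      have h3 : h (ic w₀ (algebraMap k K x)) = kc k w' x := hh x
      have h4 : g (kc k w' x) = kc k w x := hgk x
      change g (h (ic w₀ (algebraMap k K x))) = ic w (algebraMap k K x)
      rw [h3, h4]
      rfl
    · change g (h (ic w₀ θ)) = ic w θ
      rw [h1, h2]
  apply hUNQ K w₀ w
  intro x hx
  rw [← hagree] at hx
  exact (hhn _).2.1 ((hgn _).2.1 hx)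

end Pool.Agent.H81.N6E
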